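import Pool.Agent.H487.GP.Stm
import Pool.Agent.H331.GA.KB

/-!
Bounds for the truncated Poisson kernel with the narrow cut-off and its Fourier transform (`S_KBH`).
Adapted from the module `H331.GA.KB` (`S_KB`) with `chi (2 x)` for `chi x`.
-/

set_option autoImplicit false

open Complex Filter Topology Set MeasureTheory

namespace Pool.Agent.H307.GP.KBH

open Pool.Agent.H487.GA (FF C2c chi)
open Pool.Agent.H487.GP (Fh S_KBH)
open Pool.Agent.H331.GA (hcs int_e le_l1 FF_two FF_hasDeriv FF_cont FF_deriv w w_int w_nonneg dom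
  dom_int FF_w p0 p1 p2 p0_der p1_der p0_eq p1_abs p2_abs p1_le p2_le xp2_le p0_nonneg p2_cont
  chi_cd chi_one chi_zero chi_nonneg chi_le loc_const p0_cont p1_cont mul_b add_b xc xp0_le)

/-! ### The kernel away from the origin -/

theorem p0_far {y x : ℝ} (hy : 0 < y) (hx : 1 / 4 ≤ |x|) :
    p0 y x ≤ 17 * y ^ 2 * (1 + x ^ 2)⁻¹ := by
  have hs : 0 < x ^ 2 + y ^ 2 := by positivity
  have hx2 : 1 / 16 ≤ x ^ 2 := by
    rw [← sq_abs]
    nlinarith
  have h1 : 1 + x ^ 2 ≤ 17 * (x ^ 2 + y ^ 2) := by nlinarith [sq_nonneg y]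
  unfold p0
  rw [← div_eq_mul_inv, div_le_div_iff₀ hs (by positivity)]
  have h2 := mul_le_mul_of_nonneg_left h1 (sq_nonneg y)
  linarith

theorem p1_far {y x : ℝ} (hy : 0 < y) (hx : 1 / 4 ≤ |x|) :
    |p1 y x| ≤ 136 * y ^ 2 * (1 + x ^ 2)⁻¹ := by
  have hs : 0 < x ^ 2 + y ^ 2 := by positivity
  have hxx : x ^ 2 = |x| ^ 2 := (sq_abs x).symm
  have hx2 : 1 / 16 ≤ x ^ 2 := by
    rw [hxx]
    nlinarith
  rw [p1_abs, ← div_eq_mul_inv, div_le_div_iff₀ (by positivity) (by positivity)]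
  have h1 : |x| ≤ 4 * (x ^ 2 + y ^ 2) := by nlinarith [sq_nonneg y]
  have h2 : 1 + x ^ 2 ≤ 17 * (x ^ 2 + y ^ 2) := by nlinarith [sq_nonneg y]
  have h3 : |x| * (1 + x ^ 2) ≤ (4 * (x ^ 2 + y ^ 2)) * (17 * (x ^ 2 + y ^ 2)) :=
    mul_le_mul h1 h2 (by positivity) (by positivity)
  have h4 := mul_le_mul_of_nonneg_left h3 (by positivity : (0 : ℝ) ≤ 2 * y ^ 2)
  calc 2 * |x| * y ^ 2 * (1 + x ^ 2) = 2 * y ^ 2 * (|x| * (1 + x ^ 2)) := by ring
    _ ≤ 2 * y ^ 2 * ((4 * (x ^ 2 + y ^ 2)) * (17 * (x ^ 2 + y ^ 2))) := h4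
    _ = 136 * y ^ 2 * (x ^ 2 + y ^ 2) ^ 2 := by ring

theorem p2_far {y x : ℝ} (hy : 0 < y) (hx : 1 / 4 ≤ |x|) :
    |p2 y x| ≤ 1632 * y ^ 2 * (1 + x ^ 2)⁻¹ := by
  have hs : 0 < x ^ 2 + y ^ 2 := by positivity
  have hxx : x ^ 2 = |x| ^ 2 := (sq_abs x).symm
  have hx2 : 1 / 16 ≤ x ^ 2 := by
    rw [hxx]
    nlinarith
  refine (p2_abs hy x).trans ?_
  rw [← div_eq_mul_inv, div_le_div_iff₀ (by positivity) (by positivity)]
  have h2 : 1 + x ^ 2 ≤ 17 * (x ^ 2 + y ^ 2) := by nlinarith [sq_nonneg y]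
  have h3 : 1 ≤ 16 * (x ^ 2 + y ^ 2) := by nlinarith [sq_nonneg y]
  have h4 : 1 * (1 + x ^ 2) ≤ (16 * (x ^ 2 + y ^ 2)) * (17 * (x ^ 2 + y ^ 2)) :=
    mul_le_mul h3 h2 (by positivity) (by positivity)
  have h5 := mul_le_mul_of_nonneg_left h4 (by positivity : (0 : ℝ) ≤ 6 * y ^ 2)
  calc 6 * y ^ 2 * (1 + x ^ 2) = 6 * y ^ 2 * (1 * (1 + x ^ 2)) := by ring
    _ ≤ 6 * y ^ 2 * ((16 * (x ^ 2 + y ^ 2)) * (17 * (x ^ 2 + y ^ 2))) := h5
    _ = 1632 * y ^ 2 * (x ^ 2 + y ^ 2) ^ 2 := by ring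

/-- the narrow cut-off -/
noncomputable def ch (x : ℝ) : ℝ := chi (2 * x)

/-! ### The cut-off -/

theorem ch_cd : ContDiff ℝ 2 ch := by
  have h2 : ContDiff ℝ 2 (fun x : ℝ => 2 * x) := by fun_prop
  exact chi_cd.comp h2

theorem ch_one {x : ℝ} (hx : |x| ≤ 1 / 4) : ch x = 1 := by
  apply chi_one
  rw [abs_mul, abs_of_pos (by norm_num : (0 : ℝ) < 2)]
  linarith

theorem ch_zero' {x : ℝ} (hx : 1 / 2 ≤ |x|) : ch x = 0 := by
  apply chi_zero
  rw [abs_mul, abs_of_pos (by norm_num : (0 : ℝ) < 2)]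
  linarith

theorem ch_zero {x : ℝ} (hx : 1 ≤ |x|) : ch x = 0 := ch_zero' (by linarith)

theorem ch_nonneg (x : ℝ) : 0 ≤ ch x := chi_nonneg _

theorem ch_le (x : ℝ) : ch x ≤ 1 := chi_le _

theorem ch_hcs : HasCompactSupport ch := hcs fun _ hx => ch_zero hx

theorem ch1_cd : ContDiff ℝ 1 (deriv ch) := by
  have := ch_cd
  rw [show (2 : WithTop ℕ∞) = 1 + 1 by norm_num] at this
  exact (contDiff_succ_iff_deriv.1 this).2.2

theorem ch_der (x : ℝ) : HasDerivAt ch (deriv ch x) x :=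
  (ch_cd.differentiable (by norm_num) x).hasDerivAt

theorem ch1_der (x : ℝ) : HasDerivAt (deriv ch) (deriv (deriv ch) x) x :=
  (ch1_cd.differentiable (by norm_num) x).hasDerivAt

theorem ch2_cont : Continuous (deriv (deriv ch)) := ch1_cd.continuous_deriv le_rfl

theorem near {x : ℝ} (hx : |x| < 1 / 4) : deriv ch x = 0 ∧ deriv (deriv ch) x = 0 := by
  have hU : IsOpen {x : ℝ | |x| < 1 / 4} := isOpen_lt continuous_abs continuous_const
  have h1 := loc_const hU (f := ch) (c := 1) fun x hx => ch_one (le_of_lt hx)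
  exact ⟨h1 x hx, loc_const hU h1 x hx⟩

theorem far {x : ℝ} (hx : 1 < |x|) : deriv ch x = 0 ∧ deriv (deriv ch) x = 0 := by
  have hU : IsOpen {x : ℝ | 1 < |x|} := isOpen_lt continuous_const continuous_abs
  have h1 := loc_const hU (f := ch) (c := 0) fun x hx => ch_zero (le_of_lt hx)
  exact ⟨h1 x hx, loc_const hU h1 x hx⟩

theorem ch_K : ∃ K : ℝ, 0 ≤ K ∧ (∀ x, |deriv ch x| ≤ K) ∧ ∀ x, |deriv (deriv ch) x| ≤ K := by
  obtain ⟨C₁, h1⟩ := (ch1_cd.continuous).bounded_above_of_compact_support ch_hcs.deriv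
  obtain ⟨C₂, h2⟩ := ch2_cont.bounded_above_of_compact_support ch_hcs.deriv.deriv
  refine ⟨max (max C₁ C₂) 0, le_max_right _ _, fun x => ?_, fun x => ?_⟩
  · exact (h1 x).trans ((le_max_left _ _).trans (le_max_left _ _))
  · exact (h2 x).trans ((le_max_right _ _).trans (le_max_left _ _))

/-! ### The functions and their bounds -/

/-- first derivative -/
noncomputable def F1 (y x : ℝ) : ℝ := p1 y x * ch x + p0 y x * deriv ch x
/-- second derivative -/
noncomputable def F2 (y x : ℝ) : ℝ :=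
  (p2 y x * ch x + p1 y x * deriv ch x) + (p1 y x * deriv ch x + p0 y x * deriv (deriv ch) x)

theorem F_der {y : ℝ} (hy : 0 < y) (x : ℝ) : HasDerivAt (Fh y) (F1 y x) x :=
  (p0_der hy x).mul (ch_der x)

theorem F1_der {y : ℝ} (hy : 0 < y) (x : ℝ) : HasDerivAt (F1 y) (F2 y x) x :=
  ((p1_der hy x).mul (ch_der x)).add ((p0_der hy x).mul (ch1_der x))

theorem F_cont {y : ℝ} (hy : 0 < y) : Continuous (Fh y) :=
  continuous_iff_continuousAt.2 fun x => (F_der hy x).continuousAt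

theorem F1_cont {y : ℝ} (hy : 0 < y) : Continuous (F1 y) :=
  continuous_iff_continuousAt.2 fun x => (F1_der hy x).continuousAt

theorem F2_cont {y : ℝ} (hy : 0 < y) : Continuous (F2 y) :=
  (((p2_cont hy).mul ch_cd.continuous).add ((p1_cont hy).mul ch1_cd.continuous)).add
    (((p1_cont hy).mul ch1_cd.continuous).add ((p0_cont hy).mul ch2_cont))

theorem Fh_eq (y x : ℝ) : Fh y x = p0 y x * ch x := rfl

theorem F_supp' (y : ℝ) {x : ℝ} (hx : 1 / 2 ≤ |x|) : Fh y x = 0 := by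
  rw [Fh_eq, ch_zero' hx, mul_zero]

theorem F_supp (y : ℝ) {x : ℝ} (hx : 1 ≤ |x|) : Fh y x = 0 := by
  rw [Fh_eq, ch_zero hx, mul_zero]

theorem F_c2 {y : ℝ} (hy : 0 < y) : C2c (Fh y) := by
  refine ⟨?_, fun x hx => F_supp y hx⟩
  have h1 : ContDiff ℝ 2 (fun x : ℝ => y ^ 2 / (x ^ 2 + y ^ 2)) :=
    ContDiff.div contDiff_const (by fun_prop) fun x => by positivity
  exact h1.mul ch_cd

theorem F_le {y : ℝ} (x : ℝ) : |Fh y x| ≤ p0 y x := by
  have h : Fh y x = p0 y x * ch x := rfl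
  rw [h, abs_of_nonneg (mul_nonneg (p0_nonneg y x) (ch_nonneg x))]
  exact mul_le_of_le_one_right (p0_nonneg y x) (ch_le x)

theorem abs_ch (x : ℝ) : |ch x| ≤ 1 := by
  rw [abs_of_nonneg (ch_nonneg x)]
  exact ch_le x

section bounds

variable {y K : ℝ}

theorem F1_le (hy : 0 < y) (h1 : ∀ x, |deriv ch x| ≤ K) (x : ℝ) :
    |F1 y x| ≤ (1 + K * y) * w y x := by
  have e : (1 + K * y) * w y x = w y x * 1 + p0 y x * K := by
    rw [p0_eq]
    ring
  rw [e]
  exact add_b (mul_b (p1_le hy x) (abs_ch x))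
    (mul_b (abs_of_nonneg (p0_nonneg y x)).le (h1 x))

theorem F2_le (hy : 0 < y) (h1 : ∀ x, |deriv ch x| ≤ K) (h2 : ∀ x, |deriv (deriv ch) x| ≤ K)
    (x : ℝ) : |F2 y x| ≤ (6 / y + 2 * K + K * y) * w y x + 0 * (1 + x ^ 2)⁻¹ := by
  have e : (6 / y + 2 * K + K * y) * w y x + 0 * (1 + x ^ 2)⁻¹ =
      (6 / y * w y x * 1 + w y x * K) + (w y x * K + p0 y x * K) := by
    rw [p0_eq]
    ring
  rw [e]
  exact add_b (add_b (mul_b (p2_le hy x) (abs_ch x)) (mul_b (p1_le hy x) (h1 x)))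
    (add_b (mul_b (p1_le hy x) (h1 x)) (mul_b (abs_of_nonneg (p0_nonneg y x)).le (h2 x)))

theorem xF2_le (hy : 0 < y) (hK : 0 ≤ K) (h1 : ∀ x, |deriv ch x| ≤ K)
    (h2 : ∀ x, |deriv (deriv ch) x| ≤ K) (x : ℝ) :
    |x * F2 y x| ≤ (3 + 2 * K + K * y) * w y x := by
  have e : (3 + 2 * K + K * y) * w y x =
      (3 * w y x * 1 + w y x * K) + (w y x * K + p0 y x * K) := by
    rw [p0_eq]
    ring
  have e2 : x * F2 y x = (x * p2 y x * ch x + p1 y x * (x * deriv ch x)) +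
      (p1 y x * (x * deriv ch x) + p0 y x * (x * deriv (deriv ch) x)) := by
    unfold F2
    ring
  have b1 := xc hK (deriv ch) h1 (fun x hx => (far hx).1) x
  have b2 := xc hK (deriv (deriv ch)) h2 (fun x hx => (far hx).2) x
  have b3 : |x * p2 y x| ≤ 3 * w y x := by
    rw [abs_mul]
    exact xp2_le hy x
  rw [e, e2]
  exact add_b (add_b (mul_b b3 (abs_ch x)) (mul_b (p1_le hy x) b1))
    (add_b (mul_b (p1_le hy x) b1) (mul_b (abs_of_nonneg (p0_nonneg y x)).le b2))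

theorem G2_le (hy : 0 < y) (hK : 0 ≤ K) (h1 : ∀ x, |deriv ch x| ≤ K)
    (h2 : ∀ x, |deriv (deriv ch) x| ≤ K) (x : ℝ) :
    |F1 y x + (F1 y x + x * F2 y x)| ≤ (5 + 2 * K + 3 * (K * y)) * w y x + 0 * (1 + x ^ 2)⁻¹ := by
  have e : (5 + 2 * K + 3 * (K * y)) * w y x + 0 * (1 + x ^ 2)⁻¹ =
      (1 + K * y) * w y x + ((1 + K * y) * w y x + (3 + 2 * K + K * y) * w y x) := by ring
  rw [e]
  exact add_b (F1_le hy h1 x) (add_b (F1_le hy h1 x) (xF2_le hy hK h1 h2 x))

theorem G_le (hy : 0 < y) (x : ℝ) :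
    |x * Fh y x| ≤ (1 / 2 * (y * Real.sqrt y)) * w y x + (y * Real.sqrt y) * (1 + x ^ 2)⁻¹ := by
  have hw := w_nonneg hy x
  rcases le_or_gt 1 |x| with h | h
  · rw [F_supp y h, mul_zero, abs_zero]
    positivity
  · rw [abs_mul]
    have h1 := mul_le_mul_of_nonneg_left (F_le (y := y) x) (abs_nonneg x)
    refine (h1.trans (xp0_le hy x)).trans ?_
    have h2 : 1 / 2 ≤ (1 + x ^ 2)⁻¹ := by
      rw [← one_div]
      apply one_div_le_one_div_of_le (by positivity)
      nlinarith [sq_abs x, abs_nonneg x]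
    have h3 := mul_le_mul_of_nonneg_left h2 (by positivity : (0 : ℝ) ≤ y * Real.sqrt y)
    linarith

/-- the far part of the kernel -/
noncomputable def D0 (y x : ℝ) : ℝ := p0 y x * (1 - ch x)
/-- its derivative -/
noncomputable def D1 (y x : ℝ) : ℝ := p1 y x * (1 - ch x) + p0 y x * (-deriv ch x)
/-- its second derivative -/
noncomputable def D2 (y x : ℝ) : ℝ := (p2 y x * (1 - ch x) + p1 y x * (-deriv ch x)) +
  (p1 y x * (-deriv ch x) + p0 y x * (-deriv (deriv ch) x))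

theorem D0_der (hy : 0 < y) (x : ℝ) : HasDerivAt (D0 y) (D1 y x) x :=
  (p0_der hy x).mul ((ch_der x).const_sub 1)

theorem D1_der (hy : 0 < y) (x : ℝ) : HasDerivAt (D1 y) (D2 y x) x :=
  ((p1_der hy x).mul ((ch_der x).const_sub 1)).add ((p0_der hy x).mul ((ch1_der x).neg))

theorem D2_cont (hy : 0 < y) : Continuous (D2 y) :=
  (((p2_cont hy).mul (continuous_const.sub ch_cd.continuous)).add
    ((p1_cont hy).mul ch1_cd.continuous.neg)).add
    (((p1_cont hy).mul ch1_cd.continuous.neg).add ((p0_cont hy).mul ch2_cont.neg))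

theorem abs_ch' (x : ℝ) : |1 - ch x| ≤ 1 := by
  have h1 := ch_nonneg x
  have h2 := ch_le x
  rw [abs_of_nonneg (by linarith)]
  linarith

theorem D0_le (hy : 0 < y) (x : ℝ) : |D0 y x| ≤ 0 * w y x + (17 * y ^ 2) * (1 + x ^ 2)⁻¹ := by
  rw [zero_mul, zero_add]
  unfold D0
  rcases lt_or_ge |x| (1 / 4) with h | h
  · rw [ch_one h.le, sub_self, mul_zero, abs_zero]
    positivity
  · have h1 := p0_far hy h
    rw [← abs_of_nonneg (p0_nonneg y x)] at h1
    have := mul_b h1 (abs_ch' x)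
    rwa [mul_one] at this

theorem D1_le (hy : 0 < y) (hK : 0 ≤ K) (h1 : ∀ x, |deriv ch x| ≤ K) (x : ℝ) :
    |D1 y x| ≤ 0 * w y x + ((136 + 17 * K) * y ^ 2) * (1 + x ^ 2)⁻¹ := by
  rw [zero_mul, zero_add]
  unfold D1
  rcases lt_or_ge |x| (1 / 4) with h | h
  · rw [ch_one h.le, sub_self, mul_zero, (near h).1, neg_zero, mul_zero, add_zero, abs_zero]
    positivity
  · have a0 := p0_far hy h
    rw [← abs_of_nonneg (p0_nonneg y x)] at a0
    have a1 := p1_far hy h
    have a2 : |-deriv ch x| ≤ K := by rw [abs_neg]; exact h1 x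
    refine (add_b (mul_b a1 (abs_ch' x)) (mul_b a0 a2)).trans (le_of_eq ?_)
    ring

theorem D2_le (hy : 0 < y) (hK : 0 ≤ K) (h1 : ∀ x, |deriv ch x| ≤ K)
    (h2 : ∀ x, |deriv (deriv ch) x| ≤ K) (x : ℝ) :
    |D2 y x| ≤ 0 * w y x + ((1632 + 289 * K) * y ^ 2) * (1 + x ^ 2)⁻¹ := by
  rw [zero_mul, zero_add]
  unfold D2
  rcases lt_or_ge |x| (1 / 4) with h | h
  · rw [ch_one h.le, sub_self, mul_zero, (near h).1, (near h).2, neg_zero, mul_zero, mul_zero,
      add_zero, add_zero, abs_zero]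
    positivity
  · have a0 := p0_far hy h
    rw [← abs_of_nonneg (p0_nonneg y x)] at a0
    have a1 := p1_far hy h
    have a2 := p2_far hy h
    have b1 : |-deriv ch x| ≤ K := by rw [abs_neg]; exact h1 x
    have b2 : |-deriv (deriv ch) x| ≤ K := by rw [abs_neg]; exact h2 x
    refine (add_b (add_b (mul_b a2 (abs_ch' x)) (mul_b a1 b1))
      (add_b (mul_b a1 b1) (mul_b a0 b2))).trans (le_of_eq ?_)
    ring

end bounds

/-- **S_KBH.** -/
theorem kbh_proof : S_KBH := by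
  obtain ⟨K, hK, h1, h2⟩ := ch_K
  have hpi := Real.pi_pos
  refine ⟨(1649 + 289 * K) * Real.pi, by positivity, fun y hy hy2 => ?_⟩
  have hKy : K * y ≤ 2 * K := by nlinarith
  have hKy0 : 0 ≤ K * y := by positivity
  have hcs' : HasCompactSupport (Fh y) := hcs fun x hx => F_supp y hx
  have hFc := F_cont hy
  have hFi : Integrable (Fh y) := hFc.integrable_of_hasCompactSupport hcs'
  have dF : deriv (Fh y) = F1 y := funext fun x => (F_der hy x).deriv
  have dF1 : deriv (F1 y) = F2 y := funext fun x => (F1_der hy x).deriv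
  -- L1 bounds
  have n1 : ∫ x : ℝ, |Fh y x| ≤ y * Real.pi := by
    have := dom hy (Fh y) y 0 fun x => by
      rw [zero_mul, add_zero, ← p0_eq]
      exact F_le x
    rwa [add_zero] at this
  have n2 : ∫ x : ℝ, |F2 y x| ≤ (6 + 8 * K) * Real.pi / y := by
    have h3 := dom hy (F2 y) (6 / y + 2 * K + K * y) 0 (F2_le hy h1 h2)
    refine h3.trans ?_
    rw [le_div_iff₀ hy]
    have e : (6 / y + 2 * K + K * y + 0) * Real.pi * y =
        (6 + 2 * (K * y) + (K * y) * y) * Real.pi := by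
      field_simp
      ring
    rw [e]
    apply mul_le_mul_of_nonneg_right _ hpi.le
    nlinarith
  have n3 : ∫ x : ℝ, |x * Fh y x| ≤ (3 / 2 * Real.pi) * (y * Real.sqrt y) := by
    have h3 := dom hy (fun x => x * Fh y x) (1 / 2 * (y * Real.sqrt y)) (y * Real.sqrt y) (G_le hy)
    refine h3.trans (le_of_eq ?_)
    ring
  have n4 : ∫ x : ℝ, |F1 y x + (F1 y x + x * F2 y x)| ≤ (5 + 8 * K) * Real.pi := by
    have h3 := dom hy (fun x => F1 y x + (F1 y x + x * F2 y x)) (5 + 2 * K + 3 * (K * y)) 0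
      (G2_le hy hK h1 h2)
    refine h3.trans ?_
    apply mul_le_mul_of_nonneg_right _ hpi.le
    linarith
  have n5 : ∫ x : ℝ, |D0 y x| ≤ (0 + 17 * y ^ 2) * Real.pi := dom hy (D0 y) _ _ (D0_le hy)
  have n6 : ∫ x : ℝ, |D2 y x| ≤ (0 + (1632 + 289 * K) * y ^ 2) * Real.pi :=
    dom hy (D2 y) _ _ (D2_le hy hK h1 h2)
  -- compact supports
  have hGc : Continuous (fun x => x * Fh y x) := continuous_id.mul hFc
  have hGs : HasCompactSupport (fun x => x * Fh y x) := hcs'.mul_left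
  have dG : ∀ x, HasDerivAt (fun x => x * Fh y x) (Fh y x + x * F1 y x) x := fun x => by
    refine ((hasDerivAt_id x).mul (F_der hy x)).congr_deriv ?_
    simp only [id]
    ring
  have dG1 : ∀ x, HasDerivAt (fun x => Fh y x + x * F1 y x) (F1 y x + (F1 y x + x * F2 y x)) x :=
    fun x => by
      refine ((F_der hy x).add ((hasDerivAt_id x).mul (F1_der hy x))).congr_deriv ?_
      simp only [id]
      ring
  have iF1 : Integrable (F1 y) := by
    rw [← dF]
    exact (dF ▸ F1_cont hy).integrable_of_hasCompactSupport hcs'.deriv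
  have iF2 : Integrable (F2 y) := by
    have h3 : HasCompactSupport (F2 y) := by
      rw [← dF1, ← dF]
      exact hcs'.deriv.deriv
    exact (F2_cont hy).integrable_of_hasCompactSupport h3
  have iG : Integrable (fun x => x * Fh y x) := hGc.integrable_of_hasCompactSupport hGs
  have hs1 : HasCompactSupport (F1 y) := by
    rw [← dF]
    exact hcs'.deriv
  have hs2 : HasCompactSupport (F2 y) := by
    rw [← dF1]
    exact hs1.deriv
  have iG1 : Integrable (fun x => Fh y x + x * F1 y x) := by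
    have h3 : Integrable (fun x => x * F1 y x) :=
      (continuous_id.mul (F1_cont hy)).integrable_of_hasCompactSupport hs1.mul_left
    exact hFi.add h3
  have iG2 : Integrable (fun x => F1 y x + (F1 y x + x * F2 y x)) := by
    have h3 : Integrable (fun x => x * F2 y x) :=
      (continuous_id.mul (F2_cont hy)).integrable_of_hasCompactSupport hs2.mul_left
    exact iF1.add (iF1.add h3)
  have hdFF := FF_deriv hFc hcs'
  refine ⟨F_c2 hy, fun x hx => F_supp' y hx, ?_, ?_, (FF_cont hFc hcs').continuousOn, ?_,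
    fun ξ hξ => ?_⟩
  · refine n1.trans ?_
    nlinarith [mul_pos hpi hy, mul_nonneg hK (mul_pos hpi hy).le]
  · rw [dF, dF1]
    refine n2.trans ?_
    apply div_le_div_of_nonneg_right _ hy.le
    apply mul_le_mul_of_nonneg_right _ hpi.le
    linarith
  · rw [hdFF]
    exact (continuous_const.mul (FF_cont hGc hGs)).continuousOn
  · have hξ2 : 0 < ξ ^ 2 := by positivity
    refine ⟨?_, ?_, (FF_hasDeriv hFc hcs' ξ).differentiableAt, ?_, ?_, ?_⟩
    · refine ((le_l1 ξ).trans n1).trans ?_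
      nlinarith [mul_pos hpi hy, mul_nonneg hK (mul_pos hpi hy).le]
    · have h3 := (FF_two (F_der hy) (F1_der hy) hFi iF1 iF2 ξ).trans n2
      rw [le_div_iff₀ hy] at h3
      rw [le_div_iff₀ (by positivity)]
      have h4 : (6 + 8 * K) * Real.pi ≤ (1649 + 289 * K) * Real.pi :=
        mul_le_mul_of_nonneg_right (by linarith) hpi.le
      calc ‖FF (Fh y) ξ‖ * (y * ξ ^ 2) = ξ ^ 2 * ‖FF (Fh y) ξ‖ * y := by ring
        _ ≤ (6 + 8 * K) * Real.pi := h3
        _ ≤ _ := h4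
    · rw [hdFF]
      simp only
      rw [norm_mul, norm_neg, Complex.norm_I, one_mul]
      refine ((le_l1 ξ).trans n3).trans ?_
      apply mul_le_mul_of_nonneg_right _ (by positivity)
      nlinarith [mul_nonneg hK hpi.le]
    · rw [hdFF]
      simp only
      rw [norm_mul, norm_neg, Complex.norm_I, one_mul, le_div_iff₀ hξ2, mul_comm]
      refine ((FF_two dG dG1 iG iG1 iG2 ξ).trans n4).trans ?_
      exact mul_le_mul_of_nonneg_right (by linarith) hpi.le
    · have iD0 : Integrable (D0 y) :=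
        dom_int hy (D0 y) (continuous_iff_continuousAt.2 fun x => (D0_der hy x).continuousAt) _ _
          (D0_le hy)
      have iD1 : Integrable (D1 y) :=
        dom_int hy (D1 y) (continuous_iff_continuousAt.2 fun x => (D1_der hy x).continuousAt) _ _
          (D1_le hy hK h1)
      have iD2 : Integrable (D2 y) := dom_int hy (D2 y) (D2_cont hy) _ _ (D2_le hy hK h1 h2)
      have hp0 : p0 y = fun x => y * w y x := funext fun x => p0_eq y x
      have ip0 : Integrable (p0 y) := by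
        rw [hp0]
        exact (w_int hy).const_mul y
      have e1 : FF (Fh y) ξ = FF (p0 y) ξ - FF (D0 y) ξ := by
        unfold FF
        rw [← integral_sub (int_e ip0 ξ) (int_e iD0 ξ)]
        congr 1
        funext s
        have h3 : Fh y s = p0 y s - D0 y s := by
          have h4 : Fh y s = p0 y s * ch s := rfl
          rw [h4]
          unfold D0
          ring
        rw [h3]
        push_cast
        ring
      have e2 : FF (p0 y) ξ = (y : ℂ) * FF (w y) ξ := by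
        unfold FF
        rw [← integral_const_mul]
        congr 1
        funext s
        rw [p0_eq]
        push_cast
        ring
      have e3 : FF (Fh y) ξ - ((Real.pi * y * Real.exp (-(y * ξ)) : ℝ) : ℂ) = -FF (D0 y) ξ := by
        rw [e1, e2, FF_w hy ξ hξ]
        push_cast
        ring
      rw [e3, norm_neg, le_div_iff₀ (by positivity)]
      have h5 := (FF_two (D0_der hy) (D1_der hy) iD0 iD1 iD2 ξ).trans n6
      have h6 := (le_l1 (F := D0 y) ξ).trans n5
      nlinarith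

end Pool.Agent.H307.GP.KBH
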